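import Mathlib

/-!
# Neighbor-locating chromatic number of Mycielski graphs (MP_03cbb9_co)

A connected graph `G` on 7 vertices with `chiNL G = 5` whose Mycielski graph satisfies
`chiNL (myc G) ≤ 5`.  This disproves `chiNL (myc G) = chiNL G + 1` for all graphs.
-/

namespace Pool.Agent.Results.MP_03cbb9_co.MycielskiSeven

/-- `c` is a neighbor-locating colouring of `G`: it is proper, and two distinct vertices with the
same colour see different sets of colours in their open neighbourhoods. -/
def IsNL {V α : Type*} (G : SimpleGraph V) (c : V → α) : Prop :=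
  (∀ u v, G.Adj u v → c u ≠ c v) ∧
    ∀ u v, u ≠ v → c u = c v → c '' G.neighborSet u ≠ c '' G.neighborSet v

/-- `G` has a neighbor-locating colouring with (at most) `k` colours. -/
def NLColorable {V : Type*} (G : SimpleGraph V) (k : ℕ) : Prop :=
  ∃ c : V → Fin k, IsNL G c

/-- The neighbor-locating chromatic number. -/
noncomputable def chiNL {V : Type*} (G : SimpleGraph V) : ℕ :=
  sInf {k : ℕ | NLColorable G k}

/-- The adjacency of the Mycielski graph: `some (inl v)` is the vertex `u_v`, `some (inr v)` is its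
shadow `u_v'`, and `none` is the vertex `w`. -/
def mycAdj {V : Type*} (G : SimpleGraph V) : Option (V ⊕ V) → Option (V ⊕ V) → Prop
  | some (Sum.inl a), some (Sum.inl b) => G.Adj a b
  | some (Sum.inl a), some (Sum.inr b) => G.Adj a b
  | some (Sum.inr a), some (Sum.inl b) => G.Adj a b
  | some (Sum.inr _), none => True
  | none, some (Sum.inr _) => True
  | _, _ => False

/-- The Mycielski graph of `G`. -/
def myc {V : Type*} (G : SimpleGraph V) : SimpleGraph (Option (V ⊕ V)) where
  Adj := mycAdj G
  symm := ⟨by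
    rintro (_ | a | a) (_ | b | b) h <;> simp_all [mycAdj, G.adj_comm]⟩
  loopless := ⟨by
    rintro (_ | a | a) h <;> simp_all [mycAdj]⟩

/-- The list of edges of the example. -/
def edgeList : List (Fin 7 × Fin 7) :=
  [(0,1),(0,2),(1,5),(1,6),(2,3),(2,4),(3,5),(3,6),(4,5),(4,6)]

/-- The example: a connected graph with 7 vertices and 10 edges. -/
def G7 : SimpleGraph (Fin 7) where
  Adj a b := (a, b) ∈ edgeList ∨ (b, a) ∈ edgeList
  symm := ⟨fun _ _ h => h.symm⟩
  loopless := ⟨by decide⟩

instance : DecidableRel G7.Adj := fun a b =>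
  inferInstanceAs (Decidable ((a, b) ∈ edgeList ∨ (b, a) ∈ edgeList))

instance : DecidableRel (myc G7).Adj := fun a b =>
  match a, b with
  | some (Sum.inl a), some (Sum.inl b) => inferInstanceAs (Decidable (G7.Adj a b))
  | some (Sum.inl a), some (Sum.inr b) => inferInstanceAs (Decidable (G7.Adj a b))
  | some (Sum.inr a), some (Sum.inl b) => inferInstanceAs (Decidable (G7.Adj a b))
  | some (Sum.inr _), none => isTrue trivial
  | none, some (Sum.inr _) => isTrue trivial
  | none, none => isFalse id
  | none, some (Sum.inl _) => isFalse id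
  | some (Sum.inl _), none => isFalse id
  | some (Sum.inr _), some (Sum.inr _) => isFalse id

theorem isNL_of {V α : Type*} (G : SimpleGraph V) (c : V → α)
    (h1 : ∀ u v, G.Adj u v → c u ≠ c v)
    (h2 : ∀ u v, u ≠ v → c u = c v →
      ∃ x, ¬ ((∃ w, G.Adj u w ∧ c w = x) ↔ (∃ w, G.Adj v w ∧ c w = x))) : IsNL G c := by
  refine ⟨h1, fun u v huv hc he => ?_⟩
  obtain ⟨x, hx⟩ := h2 u v huv hc
  apply hx
  have := Set.ext_iff.1 he x
  simpa [Set.mem_image, SimpleGraph.mem_neighborSet] using this

def c7 : Fin 7 → Fin 5 := ![0, 1, 1, 0, 2, 3, 4]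

theorem nl5 : NLColorable G7 5 :=
  ⟨c7, isNL_of _ _ (by decide +kernel) (by decide +kernel)⟩

def cu : Fin 7 → Fin 5 := ![1, 0, 2, 0, 1, 2, 3]
def cs : Fin 7 → Fin 5 := ![3, 4, 4, 1, 4, 2, 3]

def cM : Option (Fin 7 ⊕ Fin 7) → Fin 5
  | none => 0
  | some (Sum.inl v) => cu v
  | some (Sum.inr v) => cs v

theorem nlM : NLColorable (myc G7) 5 :=
  ⟨cM, isNL_of _ _ (by decide +kernel) (by decide +kernel)⟩

/-- neighbourhood lists -/
def nb : Fin 7 → List (Fin 7) :=
  ![[1,2],[0,5,6],[0,3,4],[2,5,6],[2,5,6],[1,3,4],[1,3,4]]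

theorem mem_nb : ∀ u w, G7.Adj u w ↔ w ∈ nb u := by decide +kernel

/-- do `u` and `v` see the same colours? -/
def same (c : Fin 7 → Fin 4) (u v : Fin 7) : Bool :=
  (List.finRange 4).all fun x => ((nb u).any fun w => c w == x) == ((nb v).any fun w => c w == x)

theorem same_spec (c : Fin 7 → Fin 4) (u v : Fin 7) (h : same c u v = true) :
    c '' G7.neighborSet u = c '' G7.neighborSet v := by
  ext x
  have hx := List.all_eq_true.1 h x (List.mem_finRange x)
  have key : ∀ t, (x ∈ c '' G7.neighborSet t ↔ ((nb t).any fun w => c w == x) = true) := by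
    intro t
    simp only [Set.mem_image, SimpleGraph.mem_neighborSet, mem_nb, List.any_eq_true, beq_iff_eq]
  rw [key, key]
  simp only [beq_iff_eq] at hx
  rw [hx]

def bad (c : Fin 7 → Fin 4) : Bool :=
  (List.finRange 7).any fun u => (List.finRange 7).any fun v => u != v && (c u == c v) && same c u v

def chk : Bool :=
  (List.finRange 4).all fun a => (List.finRange 4).all fun b => (a == b) ||
  ((List.finRange 4).all fun c => (a == c) ||
  ((List.finRange 4).all fun d => (c == d) ||
  ((List.finRange 4).all fun e => (c == e) ||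
  ((List.finRange 4).all fun f => (b == f) || (d == f) || (e == f) ||
  ((List.finRange 4).all fun g => (b == g) || (d == g) || (e == g) ||
    bad ![a, b, c, d, e, f, g])))))

theorem chk_true : chk = true := by decide +kernel

theorem no4' (a b : Fin 4) (h1 : a ≠ b) (c : Fin 4) (h2 : a ≠ c) (d : Fin 4) (h3 : c ≠ d)
    (e : Fin 4) (h4 : c ≠ e) (f : Fin 4) (h5 : b ≠ f) (h6 : d ≠ f) (h7 : e ≠ f)
    (g : Fin 4) (h8 : b ≠ g) (h9 : d ≠ g) (h10 : e ≠ g) :
    ∃ u v : Fin 7, u ≠ v ∧ ![a,b,c,d,e,f,g] u = ![a,b,c,d,e,f,g] v ∧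
      same ![a,b,c,d,e,f,g] u v = true := by
  have h := chk_true
  unfold chk at h
  have := List.all_eq_true.1 (List.all_eq_true.1 h a (List.mem_finRange a)) b (List.mem_finRange b)
  simp only [Bool.or_eq_true, beq_iff_eq, h1, false_or] at this
  have := List.all_eq_true.1 this c (List.mem_finRange c)
  simp only [Bool.or_eq_true, beq_iff_eq, h2, false_or] at this
  have := List.all_eq_true.1 this d (List.mem_finRange d)
  simp only [Bool.or_eq_true, beq_iff_eq, h3, false_or] at this
  have := List.all_eq_true.1 this e (List.mem_finRange e)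
  simp only [Bool.or_eq_true, beq_iff_eq, h4, false_or] at this
  have := List.all_eq_true.1 this f (List.mem_finRange f)
  simp only [Bool.or_eq_true, beq_iff_eq, h5, h6, h7, false_or] at this
  have := List.all_eq_true.1 this g (List.mem_finRange g)
  simp only [Bool.or_eq_true, beq_iff_eq, h8, h9, h10, false_or] at this
  unfold bad at this
  obtain ⟨u, -, hu⟩ := List.any_eq_true.1 this
  obtain ⟨v, -, hv⟩ := List.any_eq_true.1 hu
  rw [Bool.and_eq_true, Bool.and_eq_true, bne_iff_ne, beq_iff_eq] at hv
  exact ⟨u, v, hv.1.1, hv.1.2, hv.2⟩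

theorem not_nl4 : ¬ NLColorable G7 4 := by
  rintro ⟨c, h1, h2⟩
  have hc : c = ![c 0, c 1, c 2, c 3, c 4, c 5, c 6] := by
    funext i; fin_cases i <;> rfl
  obtain ⟨u, v, huv, he, hs⟩ := no4' (c 0) (c 1) (h1 0 1 (by decide)) (c 2) (h1 0 2 (by decide))
    (c 3) (h1 2 3 (by decide)) (c 4) (h1 2 4 (by decide)) (c 5) (h1 1 5 (by decide))
    (h1 3 5 (by decide)) (h1 4 5 (by decide)) (c 6) (h1 1 6 (by decide)) (h1 3 6 (by decide))
    (h1 4 6 (by decide))
  rw [← hc] at he hs
  exact h2 u v huv he (same_spec c u v hs)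

theorem mono {V : Type*} {G : SimpleGraph V} {k l : ℕ} (hkl : k ≤ l) (h : NLColorable G k) :
    NLColorable G l := by
  obtain ⟨c, h1, h2⟩ := h
  refine ⟨fun v => Fin.castLE hkl (c v), fun u v huv h => h1 u v huv
    (Fin.castLE_injective hkl h), fun u v huv hc he => ?_⟩
  refine h2 u v huv (Fin.castLE_injective hkl hc) ?_
  have e : ∀ t, (fun v => Fin.castLE hkl (c v)) '' G.neighborSet t =
      Fin.castLE hkl '' (c '' G.neighborSet t) := fun t => by rw [Set.image_image]
  rw [e, e] at he
  exact (Set.image_injective.2 (Fin.castLE_injective hkl)) he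

theorem chi_eq : chiNL G7 = 5 := by
  apply le_antisymm
  · exact Nat.sInf_le nl5
  · by_contra hlt
    push Not at hlt
    have hne : {k : ℕ | NLColorable G7 k}.Nonempty := ⟨5, nl5⟩
    have := Nat.sInf_mem hne
    exact not_nl4 (mono (by unfold chiNL at hlt; omega) this)

theorem conn : G7.Connected := by
  have h : ∀ v : Fin 7, G7.Reachable 0 v := by
    have a01 : G7.Adj 0 1 := by decide
    have a02 : G7.Adj 0 2 := by decide
    have a15 : G7.Adj 1 5 := by decide
    have a16 : G7.Adj 1 6 := by decide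
    have a23 : G7.Adj 2 3 := by decide
    have a24 : G7.Adj 2 4 := by decide
    intro v
    fin_cases v
    · exact SimpleGraph.Reachable.refl _
    · exact a01.reachable
    · exact a02.reachable
    · exact a02.reachable.trans a23.reachable
    · exact a02.reachable.trans a24.reachable
    · exact a01.reachable.trans a15.reachable
    · exact a01.reachable.trans a16.reachable
  rw [SimpleGraph.connected_iff]
  exact ⟨fun u v => (h u).symm.trans (h v), ⟨0⟩⟩

/-- There is a connected graph on seven vertices with `chiNL = 5` whose Mycielski graph has a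
neighbor-locating colouring with 5 colours, so that `chiNL (myc G) ≤ chiNL G` and in particular
`chiNL (myc G) ≠ chiNL G + 1`. -/
theorem result : ∃ G : SimpleGraph (Fin 7), G.Connected ∧ chiNL G = 5 ∧ chiNL (myc G) ≤ 5 ∧
    chiNL (myc G) ≠ chiNL G + 1 := by
  refine ⟨G7, conn, chi_eq, Nat.sInf_le nlM, ?_⟩
  have h : chiNL (myc G7) ≤ 5 := Nat.sInf_le nlM
  rw [chi_eq]
  omega

end Pool.Agent.Results.MP_03cbb9_co.MycielskiSeven
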